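import Pool.Agent.Helper24.EG.Goals
import Pool.Agent.Helper52.Main

/-!
# Packet EG-MAIN: the final reduction for connected even graphs
-/

set_option autoImplicit false

namespace Pool.Agent.Helper62.EG

open Finset PowerSeries Pool.Agent.Helper52 Pool.Agent.Helper24.EG

noncomputable section

open Classical in
/-- the generating function of the connected even graphs as a power series -/
def CP (p : ℕ) : PowerSeries ℂ :=
  ∑ G : SimpleGraph (Fin p),
    if (∀ v, Even (G.neighborSet v).ncard) ∧ G.Connected then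
      (PowerSeries.X : PowerSeries ℂ) ^ G.edgeSet.ncard else 0

theorem ev_X_pow (z : ℂ) (hz : ‖z‖ < 1) (n : ℕ) :
    ev z ((PowerSeries.X : PowerSeries ℂ) ^ n) = z ^ n := by
  induction n with
  | zero => rw [pow_zero, pow_zero, ev_one hz]
  | succ n ih => rw [pow_succ, ev_mul (Good.pow_mem X_mem_Good n) X_mem_Good hz, ih, ev_X, pow_succ]

theorem term_mem (p : ℕ) (G : SimpleGraph (Fin p)) :
    (open Classical in
      if (∀ v, Even (G.neighborSet v).ncard) ∧ G.Connected then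
      (PowerSeries.X : PowerSeries ℂ) ^ G.edgeSet.ncard else 0) ∈ Good := by
  classical
  split_ifs
  · exact Good.pow_mem X_mem_Good _
  · exact Good.zero_mem

theorem CP_mem (p : ℕ) : CP p ∈ Good := Good.sum_mem fun G _ => term_mem p G

theorem ev_CP (p : ℕ) {z : ℂ} (hz : ‖z‖ < 1) : ev z (CP p) = Cn p z := by
  rw [CP, ev_sum _ _ (fun G _ => term_mem p G) hz, Cn]
  refine Finset.sum_congr rfl fun G _ => ?_
  rw [cG]
  split_ifs
  · exact ev_X_pow z hz _
  · exact ev_zero_series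

/-- the sum of the exponential terms -/
def SS (p : ℕ) : PowerSeries ℂ := ∑ k ∈ range (p + 1), (p.choose k : ℂ) •
      ((Su (p.choose 2) (k * (p - k)) : GI) : PowerSeries ℂ)

theorem SSt_mem (p : ℕ) : ∀ k ∈ range (p + 1), ((p.choose k : ℂ) •
      ((Su (p.choose 2) (k * (p - k)) : GI) : PowerSeries ℂ)) ∈ Good := fun _ _ =>
    smul_mem_Good _ (GI.good (unit_mem _))

theorem SS_mem (p : ℕ) : SS p ∈ Good := Good.sum_mem (SSt_mem p)

theorem ev_SS (p : ℕ) {z : ℂ} (hz : ‖z‖ < 1) : ev z (SS p) = 2 ^ p * Wn p z := by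
  rw [SS, ev_sum _ _ (SSt_mem p) hz]
  have h : (2 : ℂ) ^ p * Wn p z = (2 : ℂ) ^ p * ∑ G : SimpleGraph (Fin p),
        (open Classical in
          if ∀ v, Even (G.neighborSet v).ncard then z ^ G.edgeSet.ncard else 0) := by
    rw [Wn]
    refine congrArg _ (Finset.sum_congr rfl fun G _ => ?_)
    rw [wG]
    split_ifs <;> rfl
  rw [h, even_graph_sum z p]
  refine Finset.sum_congr rfl fun k _ => ?_
  rw [ev_smul]
  have h2 := tv_Su (p.choose 2) (k * (p - k)) hz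
  rw [tv] at h2
  rw [h2]
  ring

/-- the disconnected part -/
def DD (p : ℕ) : PowerSeries ℂ := SS p - (2 : ℂ) ^ p • CP p

theorem DD_mem (p : ℕ) : DD p ∈ Good := Good.sub_mem (SS_mem p) (smul_mem_Good _ (CP_mem p))

theorem ev_DD (p : ℕ) {z : ℂ} (hz : ‖z‖ < 1) : ev z (DD p) = 2 ^ p * (Wn p z - Cn p z) := by
  rw [DD, ev_sub (SS_mem p) (smul_mem_Good _ (CP_mem p)) hz, ev_SS p hz, ev_smul, ev_CP p hz]
  ring

theorem norm_Cn_le (p : ℕ) (z : ℂ) : ‖Cn p z‖ ≤ ‖Wn p ((‖z‖ : ℝ) : ℂ)‖ := by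
  classical
  have h1 : Wn p ((‖z‖ : ℝ) : ℂ) = ((∑ G : SimpleGraph (Fin p),
      (if ∀ v, Even (G.neighborSet v).ncard then ‖z‖ ^ G.edgeSet.ncard else 0) : ℝ) : ℂ) := by
    rw [Wn, Complex.ofReal_sum]
    refine Finset.sum_congr rfl fun G _ => ?_
    rw [wG]
    split_ifs <;> simp
  rw [h1, Complex.norm_real, Real.norm_of_nonneg (Finset.sum_nonneg fun G _ => by
    split_ifs
    · positivity
    · exact le_refl _), Cn]
  refine (norm_sum_le _ _).trans (Finset.sum_le_sum fun G _ => ?_)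
  rw [cG]
  by_cases h2 : ∀ v, Even (G.neighborSet v).ncard
  · rw [if_pos h2]
    split_ifs
    · rw [norm_pow]
    · rw [norm_zero]; positivity
  · rw [if_neg h2, if_neg (fun h => h2 h.1), norm_zero]

theorem norm_Cn_bound {p : ℕ} (hp : 2 ≤ p) {z : ℂ} (hz : ‖z‖ < 1) :
    ‖Cn p z‖ ≤ 2 ^ (p.choose 2) := by
  refine (norm_Cn_le p z).trans ?_
  set x : ℂ := ((‖z‖ : ℝ) : ℂ) with hx
  have hx1 : ‖x‖ < 1 := by
    rw [hx, Complex.norm_real, Real.norm_of_nonneg (norm_nonneg _)]; exact hz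
  have h1 : (2 : ℝ) ^ p * ‖Wn p x‖ ≤ 2 ^ p * 2 ^ (p.choose 2) := by
    have h2 : ‖ev x (SS p)‖ = (2 : ℝ) ^ p * ‖Wn p x‖ := by
      rw [ev_SS p hx1, norm_mul, norm_pow, Complex.norm_ofNat]
    rw [← h2, SS, ev_sum _ _ (SSt_mem p) hx1]
    refine (norm_sum_le _ _).trans ?_
    have h3 : ∀ k ∈ range (p + 1), ‖ev x ((p.choose k : ℂ) •
        ((Su (p.choose 2) (k * (p - k)) : GI) : PowerSeries ℂ))‖
        ≤ (p.choose k : ℝ) * 2 ^ (p.choose 2) := by
      intro k hk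
      rw [ev_smul, norm_mul, Complex.norm_natCast]
      have hk' : k ≤ p := Nat.lt_succ_iff.mp (Finset.mem_range.mp hk)
      exact mul_le_mul_of_nonneg_left (norm_Su_le (lam_le hp hk') hx1) (by positivity)
    refine (Finset.sum_le_sum h3).trans (le_of_eq ?_)
    rw [← Finset.sum_mul]
    congr 1
    have := Nat.sum_range_choose p
    exact_mod_cast this
  exact le_of_mul_le_mul_left h1 (by positivity)

theorem main_units_conn (hDB : G_DB) (hDom : G_DOM) (hCore : G_CORE) (M : ℕ) :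
    ∃ p₀ : ℕ, ∀ p ≥ p₀, ∀ (T : Fin M → GIˣ) (c : Fin M → ℂ),
    (∀ x : ℝ, 0 < x → x < 1 → Cn p (x : ℂ) = ∑ l, c l * tv (T l) (x : ℂ)) → False := by
  obtain ⟨b, D₀, hb, hD₀, hstr⟩ := structure_thm M
  have hDs : ∀ c : ℝ, 0 < c → ∃ K : ℝ, 1 ≤ K ∧ ∀ (p : ℕ) (z : ℂ), 1 ≤ p → ‖z‖ ≤ 1 / 2 → c ≤ z.re →
      ‖ev z (DD p)‖ ≤ K * p ^ 2 * ‖1 + z‖ ^ (p.choose 2) * Real.exp (-(‖z‖ ^ 2 * p / 5)) := by
    intro c hc
    obtain ⟨K, hK, h⟩ := hDB c hc
    refine ⟨K, hK, fun p z hp hz hre => ?_⟩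
    rw [ev_DD p (by linarith), norm_mul, norm_pow, Complex.norm_ofNat]
    exact h p z hp hz hre
  choose p₁ hp₁ using fun q => hCore q b hb (hDom q) DD DD_mem hDs
  obtain ⟨pD, hpD⟩ := exists_nat_gt D₀
  refine ⟨∑ q ∈ range (M + 1), p₁ q + pD + 5, fun p hp T c hW => ?_⟩
  have hp5 : 5 ≤ p := by omega
  have hpR : (5 : ℝ) ≤ p := by exact_mod_cast hp5
  have hpD' : D₀ ≤ p := by
    have : (pD : ℝ) ≤ p := by
      have : pD ≤ p := by omega
      exact_mod_cast this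
    linarith
  have hp₁' : ∀ q ≤ M, p₁ q ≤ p := by
    intro q hq
    have h1 : p₁ q ≤ ∑ q ∈ range (M + 1), p₁ q :=
      Finset.single_le_sum (f := p₁) (fun _ _ => Nat.zero_le _)
        (Finset.mem_range.mpr (Nat.lt_succ_of_le hq))
    omega
  set F := Fs T c with hF
  have hFG : F ∈ Good := Fs_mem T c
  have hFCP : F = CP p := by
    rw [← sub_eq_zero]
    apply eq_zero_of_real (Good.sub_mem hFG (CP_mem p))
    intro x hx0 hx1
    have hx : ‖(x : ℂ)‖ < 1 := by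
      rw [Complex.norm_real, Real.norm_of_nonneg hx0.le]; exact hx1
    rw [ev_sub hFG (CP_mem p) hx, hF, ev_Fs T c hx, ← hW x hx0 hx1, ev_CP p hx, sub_self]
  have hFS : (2 : ℂ) ^ p • F = (∑ k ∈ range (p + 1), (p.choose k : ℂ) •
      ((Su (p.choose 2) (k * (p - k)) : GI) : PowerSeries ℂ)) - DD p := by
    rw [hFCP, DD, SS, sub_sub_cancel]
  have hNle : ((p.choose 2 : ℕ) : ℝ) ≤ (p : ℝ) ^ 2 := by
    have h1 : p.choose 2 ≤ p ^ 2 := by
      rw [Nat.choose_two_right]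
      refine (Nat.div_le_self _ _).trans ?_
      rw [pow_two]
      exact Nat.mul_le_mul_left _ (Nat.sub_le _ _)
    exact_mod_cast h1
  have hbound : ∀ z : ℂ, ‖z‖ ≤ 1 - 1 / ((p : ℝ) ^ 2) ^ b →
      ‖ev z F‖ ≤ Real.exp ((p : ℝ) ^ 2) := by
    intro z hz
    have hz1 : ‖z‖ < 1 := by
      have : 0 < 1 / ((p : ℝ) ^ 2) ^ b := by positivity
      linarith
    rw [hFCP, ev_CP p hz1]
    refine (norm_Cn_bound (by omega) hz1).trans ?_
    have h3 : (2 : ℝ) ≤ Real.exp 1 := by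
      have := Real.add_one_le_exp (1 : ℝ)
      linarith
    calc (2 : ℝ) ^ (p.choose 2) ≤ (Real.exp 1) ^ (p.choose 2) := by gcongr
      _ = Real.exp ((p.choose 2 : ℕ) : ℝ) := by rw [← Real.exp_nat_mul, mul_one]
      _ ≤ _ := Real.exp_le_exp.mpr hNle
  have hDge : D₀ ≤ (p : ℝ) ^ 2 := by nlinarith
  obtain ⟨q, hq, T', c', r, ν, hr1, hr2, hν, hν', herr, hld⟩ := hstr _ hDge T c hbound
  exact hp₁ q p (hp₁' q hq) F hFG hFS T' c' r ν hr1 hr2 hν hν' herr hld

/-- **MAIN** -/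
theorem gMAIN (hDB : G_DB) (hDom : G_DOM) (hCore : G_CORE) : G_MAIN := by
  classical
  intro M
  obtain ⟨p₀, hp₀⟩ := main_units_conn hDB hDom hCore M
  refine ⟨p₀, fun p hp c a b h => ?_⟩
  set s : Finset ℕ := Finset.univ.biUnion (fun i : Fin M => (expo (a i) (b i)).support) with hs
  have hsup : ∀ i, (expo (a i) (b i)).support ⊆ s := fun i =>
    Finset.subset_biUnion_of_mem (fun i : Fin M => (expo (a i) (b i)).support) (Finset.mem_univ i)
  set W : Polynomial ℝ := ∑ G : SimpleGraph (Fin p),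
    (if (∀ v, Even (G.neighborSet v).ncard) ∧ G.Connected then
      Polynomial.X ^ G.edgeSet.ncard else 0) with hW
  have hWe : ∀ x : ℝ, W.eval x = ∑ G : SimpleGraph (Fin p),
      (if (∀ v, Even (G.neighborSet v).ncard) ∧ G.Connected then x ^ G.edgeSet.ncard else 0) := by
    intro x
    rw [hW, Polynomial.eval_finsetSum]
    refine Finset.sum_congr rfl fun G _ => ?_
    split_ifs <;> simp
  obtain ⟨c', m, hm⟩ := reduce_real s c (fun i => expo (a i) (b i)) W (by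
    intro x hx
    rw [hWe]
    have h1 := h x hx
    refine Eq.trans ?_ (h1.trans ?_)
    · refine Finset.sum_congr rfl fun G _ => ?_
      congr
    · refine Finset.sum_congr rfl fun i _ => ?_
      rw [mul_assoc, term_eq (a i) (b i) hx, lsum_eq (hsup i)])
  refine hp₀ p hp (fun i => ∏ k ∈ s, oneSub (k + 1) (Nat.succ_pos k) ^ m i k)
    (fun i => (c' i : ℂ)) ?_
  intro x hx0 hx1
  have hx : ‖(x : ℂ)‖ < 1 := by
    rw [Complex.norm_real, Real.norm_of_nonneg hx0.le]; exact hx1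
  have h1 := hm x ⟨hx0, hx1⟩
  rw [hWe] at h1
  have h2 := congrArg (fun y : ℝ => (y : ℂ)) h1
  simp only [Complex.ofReal_sum, Complex.ofReal_mul, Complex.ofReal_prod] at h2
  refine Eq.trans ?_ (h2.trans ?_)
  · rw [Cn]
    refine Finset.sum_congr rfl fun G _ => ?_
    rw [cG]
    split_ifs <;> simp
  · refine Finset.sum_congr rfl fun i _ => ?_
    rw [tv_prod _ _ hx]
    congr 1
    refine Finset.prod_congr rfl fun k _ => ?_
    rw [tv_zpow _ _ hx, tv_oneSub _ _ hx]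
    push_cast
    rfl

end

end Pool.Agent.Helper62.EG
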